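import Mathlib

/-!
# Measure-theoretic helpers
-/

set_option autoImplicit false

open MeasureTheory Set Filter Topology

namespace Pool.Agent.R464.HG

theorem null_of_sections_fst {m : ℕ} {B : Set (Fin (m + 1) → ℝ)} (hB : MeasurableSet B)
    (h : ∀ x' : Fin m → ℝ, volume {s : ℝ | (Fin.cons s x' : Fin (m + 1) → ℝ) ∈ B} = 0) :
    volume B = 0 := by
  have hmp := (volume_preserving_piFinSuccAbove (fun _ : Fin (m + 1) => ℝ) 0).symm
  rw [← hmp.measure_preimage hB.nullMeasurableSet]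
  have hms : MeasurableSet ((MeasurableEquiv.piFinSuccAbove (fun _ : Fin (m + 1) => ℝ) 0).symm ⁻¹' B) :=
    hB.preimage (MeasurableEquiv.measurable _)
  rw [show (volume : Measure (ℝ × (Fin m → ℝ))) = volume.prod volume from rfl,
    ← Measure.prod_swap, Measure.map_apply measurable_swap hms,
    Measure.measure_prod_null (measurable_swap hms)]
  refine Eventually.of_forall fun x' => ?_
  have := h x'
  simpa [Set.preimage, MeasurableEquiv.piFinSuccAbove, Fin.insertNthEquiv] using this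

theorem null_of_sections_snd {m : ℕ} {B : Set (Fin (m + 1) → ℝ)} (hB : MeasurableSet B)
    (h : ∀ s : ℝ, volume {x' : Fin m → ℝ | (Fin.cons s x' : Fin (m + 1) → ℝ) ∈ B} = 0) :
    volume B = 0 := by
  have hmp := (volume_preserving_piFinSuccAbove (fun _ : Fin (m + 1) => ℝ) 0).symm
  rw [← hmp.measure_preimage hB.nullMeasurableSet]
  have hms : MeasurableSet ((MeasurableEquiv.piFinSuccAbove (fun _ : Fin (m + 1) => ℝ) 0).symm ⁻¹' B) :=
    hB.preimage (MeasurableEquiv.measurable _)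
  rw [show (volume : Measure (ℝ × (Fin m → ℝ))) = volume.prod volume from rfl,
    Measure.measure_prod_null hms]
  refine Eventually.of_forall fun s => ?_
  have := h s
  simpa [Set.preimage, MeasurableEquiv.piFinSuccAbove, Fin.insertNthEquiv] using this

theorem fubini_swap {P : Type*} [MeasureSpace P] [SFinite (volume : Measure P)]
    {B : Set (P × ℝ)} (hB : MeasurableSet B)
    (h : ∀ p, volume {c : ℝ | (p, c) ∈ B} = 0) : ∀ᵐ c : ℝ, volume {p | (p, c) ∈ B} = 0 := by
  have h1 : ∀ᵐ p : P, ∀ᵐ c : ℝ, (p, c) ∉ B := by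
    refine Eventually.of_forall fun p => ?_
    rw [ae_iff]; simpa using h p
  have hm : MeasurableSet {x : P × ℝ | (x.1, x.2) ∉ B} := hB.compl
  have h2 := (Measure.ae_ae_comm (p := fun p c => (p, c) ∉ B) hm).mp h1
  filter_upwards [h2] with c hc
  rw [ae_iff] at hc; simpa using hc

theorem isClosed_exists {P : Type*} [TopologicalSpace P] {K : Set ℝ} (hK : IsCompact K)
    {C : P → ℝ → Prop} (hC : IsClosed {z : P × ℝ | C z.1 z.2}) :
    IsClosed {p | ∃ t ∈ K, C p t} := by
  rw [← isOpen_compl_iff, isOpen_iff_eventually]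
  intro p hp
  have h1 : ∀ t ∈ K, ∀ᶠ z : P × ℝ in 𝓝 (p, t), ¬ C z.1 z.2 := by
    intro t ht
    have h2 : (p, t) ∈ {z : P × ℝ | C z.1 z.2}ᶜ := fun h3 => hp ⟨t, ht, h3⟩
    exact hC.isOpen_compl.mem_nhds h2
  filter_upwards [hK.eventually_forall_of_forall_eventually (P := fun x t => ¬ C x t) h1]
    with x hx
  rintro ⟨t, ht, hc⟩
  exact hx t ht hc

theorem le_measure_of_frequently {P : Type*} [MeasurableSpace P] {μ : Measure P}
    {B : ℕ → Set P} {D K : Set P} {ε : ENNReal} (hB : ∀ k, MeasurableSet (B k))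
    (hK : μ K ≠ ⊤) (hBK : ∀ k, B k ⊆ K) (h : ∀ᵐ p ∂μ, (∃ᶠ k in atTop, p ∈ B k) → p ∈ D)
    (hε : ∀ k, ε ≤ μ (B k)) : ε ≤ μ D := by
  let V : ℕ → Set P := fun k => ⋃ j, B (k + j)
  have hVm : ∀ k, MeasurableSet (V k) := fun k => MeasurableSet.iUnion fun j => hB _
  have hVanti : Antitone V := by
    intro k l hkl x hx
    obtain ⟨j, hj⟩ := mem_iUnion.mp hx
    refine mem_iUnion.mpr ⟨l - k + j, ?_⟩
    have : k + (l - k + j) = l + j := by omega
    rw [this]; exact hj
  have hVK : ∀ k, V k ⊆ K := fun k => iUnion_subset fun j => hBK _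
  have ht := tendsto_measure_iInter_atTop (μ := μ) (s := V) (fun k => (hVm k).nullMeasurableSet)
    hVanti ⟨0, ne_top_of_le_ne_top hK (measure_mono (hVK 0))⟩
  have h1 : ε ≤ μ (⋂ k, V k) := by
    refine ge_of_tendsto' ht fun k => (hε k).trans (measure_mono ?_)
    exact fun x hx => mem_iUnion.mpr ⟨0, by simpa using hx⟩
  refine h1.trans (measure_mono_ae ?_)
  filter_upwards [h] with p hp hpV
  apply hp
  rw [frequently_atTop]
  intro k
  obtain ⟨j, hj⟩ := mem_iUnion.mp (mem_iInter.mp hpV k)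
  exact ⟨k + j, by omega, hj⟩

theorem poly_finite {m : ℕ} (A B : Fin m → ℝ) (h : ∃ i, A i ≠ 0 ∨ B i ≠ 0) :
    {c : ℝ | ∑ i : Fin m, (A i * c ^ (2 * (i : ℕ)) + B i * c ^ (2 * (i : ℕ) + 1)) = 0}.Finite := by
  classical
  let Q : Polynomial ℝ := ∑ i : Fin m, (Polynomial.C (A i) * Polynomial.X ^ (2 * (i : ℕ)) +
    Polynomial.C (B i) * Polynomial.X ^ (2 * (i : ℕ) + 1))
  have hc0 : ∀ j : Fin m, Q.coeff (2 * (j : ℕ)) = A j := by
    intro j
    simp only [Q, Polynomial.finsetSum_coeff, Polynomial.coeff_add, Polynomial.coeff_C_mul,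
      Polynomial.coeff_X_pow]
    rw [Finset.sum_eq_single j]
    · simp
    · intro i _ hij
      have h1 : ¬ (2 * (j : ℕ) = 2 * (i : ℕ)) := fun hh => hij (Fin.ext (by omega))
      have h2 : ¬ (2 * (j : ℕ) = 2 * (i : ℕ) + 1) := by omega
      simp [h1, h2]
    · simp
  have hc1 : ∀ j : Fin m, Q.coeff (2 * (j : ℕ) + 1) = B j := by
    intro j
    simp only [Q, Polynomial.finsetSum_coeff, Polynomial.coeff_add, Polynomial.coeff_C_mul,
      Polynomial.coeff_X_pow]
    rw [Finset.sum_eq_single j]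
    · simp
    · intro i _ hij
      have h1 : ¬ (2 * (j : ℕ) + 1 = 2 * (i : ℕ)) := by omega
      have h2 : ¬ ((j : ℕ) = (i : ℕ)) := fun hh => hij (Fin.ext hh.symm)
      simp [h1, h2]
    · simp
  have hQ : Q ≠ 0 := by
    rintro hQ
    obtain ⟨i, hi⟩ := h
    rcases hi with hi | hi
    · exact hi (by rw [← hc0 i, hQ, Polynomial.coeff_zero])
    · exact hi (by rw [← hc1 i, hQ, Polynomial.coeff_zero])
  refine (Polynomial.finite_setOfPred_isRoot hQ).subset ?_
  intro c hc
  simp only [Set.mem_ofPred_eq, Polynomial.IsRoot.def] at hc ⊢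
  rw [← hc]
  simp [Q, Polynomial.eval_finsetSum]

end Pool.Agent.R464.HG
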