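import Mathlib

/-!
# Shears of the unit cube
-/

set_option autoImplicit false

open Set Topology unitInterval

namespace Pool.Agent.R464.HG

/-- `s ↦ s + s (1 - s) k`, a homeomorphism of `[0,1]` for `|k| ≤ 1/2`. -/
def bump (s k : ℝ) : ℝ := s + s * (1 - s) * k

theorem bump_mem {s k : ℝ} (hs : s ∈ Icc (0 : ℝ) 1) (hk : |k| ≤ 1 / 2) :
    bump s k ∈ Icc (0 : ℝ) 1 := by
  obtain ⟨h0, h1⟩ := hs
  obtain ⟨h2, h3⟩ := abs_le.mp hk
  have h4 : 0 ≤ s * (1 - s) := mul_nonneg h0 (by linarith)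
  constructor
  · unfold bump; nlinarith
  · unfold bump; nlinarith

theorem bump_zero (s : ℝ) : bump s 0 = s := by simp [bump]

theorem bump_inj {s t k : ℝ} (hs : s ∈ Icc (0 : ℝ) 1) (ht : t ∈ Icc (0 : ℝ) 1)
    (hk : |k| ≤ 1 / 2) (h : bump s k = bump t k) : s = t := by
  obtain ⟨h0, h1⟩ := hs
  obtain ⟨h2, h3⟩ := ht
  obtain ⟨h4, h5⟩ := abs_le.mp hk
  have h6 : (s - t) * (1 + (1 - s - t) * k) = 0 := by
    unfold bump at h; linear_combination h
  rcases mul_eq_zero.mp h6 with h7 | h7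
  · linarith
  · exfalso
    have h8 : |(1 - s - t) * k| ≤ 1 / 2 := by
      rw [abs_mul]
      have : |1 - s - t| ≤ 1 := abs_le.mpr ⟨by linarith, by linarith⟩
      calc |1 - s - t| * |k| ≤ 1 * (1 / 2) := by gcongr
        _ = 1 / 2 := by norm_num
    have := (abs_le.mp h8).1
    linarith

theorem bump_surj {k : ℝ} (z : ℝ) (hz : z ∈ Icc (0 : ℝ) 1) :
    ∃ s ∈ Icc (0 : ℝ) 1, bump s k = z := by
  have hc : ContinuousOn (fun s => bump s k) (Icc (0 : ℝ) 1) := by
    unfold bump; fun_prop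
  have := intermediate_value_Icc (zero_le_one) hc
  have h0 : bump 0 k = 0 := by simp [bump]
  have h1 : bump 1 k = 1 := by simp [bump]
  rw [h0, h1] at this
  exact this hz

variable {d : ℕ}

/-- The shear with parameters `h`. -/
noncomputable def Phi (h : (Fin d → I) → Fin d → ℝ) (hh : ∀ y i, |h y i| ≤ 1 / 2)
    (y : Fin d → I) : Fin d → I :=
  fun i => ⟨bump (y i) (h y i), bump_mem (y i).2 (hh y i)⟩

theorem Phi_continuous {h : (Fin d → I) → Fin d → ℝ} (hh : ∀ y i, |h y i| ≤ 1 / 2)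
    (hc : Continuous h) : Continuous (Phi h hh) := by
  refine continuous_pi fun i => ?_
  refine Continuous.subtype_mk ?_ _
  have h1 : Continuous fun y => h y i := (continuous_apply i).comp hc
  unfold bump
  fun_prop

theorem Phi_isHomeomorph {h : (Fin d → I) → Fin d → ℝ} (hh : ∀ y i, |h y i| ≤ 1 / 2)
    (hc : Continuous h) (A : Set (Fin d)) (h0 : ∀ y, ∀ i ∉ A, h y i = 0)
    (hA : ∀ y z, (∀ i ∉ A, y i = z i) → h y = h z) : IsHomeomorph (Phi h hh) := by
  rw [isHomeomorph_iff_continuous_bijective]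
  refine ⟨Phi_continuous hh hc, ?_, ?_⟩
  · intro y z hyz
    have h1 : ∀ i, bump (y i) (h y i) = bump (z i) (h z i) := fun i => by
      have := congrFun hyz i
      simpa [Phi] using this
    have h2 : ∀ i ∉ A, y i = z i := fun i hi => by
      have := h1 i
      rw [h0 y i hi, h0 z i hi, bump_zero, bump_zero] at this
      exact Subtype.ext this
    have h3 := hA y z h2
    ext i
    have := h1 i
    rw [h3] at this
    exact bump_inj (y i).2 (z i).2 (hh z i) this
  · intro z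
    choose s hs1 hs2 using fun i => bump_surj (k := h z i) (z i : ℝ) (z i).2
    classical
    let y : Fin d → I := fun i => if i ∈ A then ⟨s i, hs1 i⟩ else z i
    have hy : h y = h z := hA y z fun i hi => by simp [y, hi]
    refine ⟨y, ?_⟩
    ext i
    simp only [Phi]
    rw [hy]
    by_cases hi : i ∈ A
    · simp only [y, hi, if_true]; exact hs2 i
    · simp only [y, hi, if_false]
      rw [h0 z i hi, bump_zero]

theorem Phi_dist {h : (Fin d → I) → Fin d → ℝ} (hh : ∀ y i, |h y i| ≤ 1 / 2) {ε : ℝ}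
    (hε : 0 ≤ ε) (hhε : ∀ y i, |h y i| ≤ ε) (y : Fin d → I) : dist (Phi h hh y) y ≤ ε := by
  rw [dist_pi_le_iff hε]
  intro i
  rw [Subtype.dist_eq, Real.dist_eq]
  simp only [Phi, bump]
  have h1 : |(y i : ℝ) * (1 - y i)| ≤ 1 := by
    obtain ⟨h0, h1⟩ := (y i).2
    rw [abs_of_nonneg (mul_nonneg h0 (by linarith))]
    nlinarith
  calc |(y i : ℝ) + y i * (1 - y i) * h y i - y i| = |(y i : ℝ) * (1 - y i)| * |h y i| := by
        rw [← abs_mul]; congr 1; ring
    _ ≤ 1 * ε := by gcongr; exact hhε y i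
    _ = ε := one_mul ε

end Pool.Agent.R464.HG
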