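import Mathlib
import Pool.Agent.R464.HG.Shear

/-!
# Fast oscillations create double crossings
-/

set_option autoImplicit false

open Set Topology Filter

namespace Pool.Agent.R464.HG

theorem osc4_pos {v : ℝ → ℝ} (hv : Continuous v) {s1 s2 : ℝ} (hs : s1 < s2) (h : v s1 < v s2) :
    ∃ N0 : ℕ, ∀ N : ℕ, N0 ≤ N → ∃ r1 r2 r3 r4 : ℝ, s1 ≤ r1 ∧ r1 < r2 ∧ r2 < r3 ∧ r3 < r4 ∧
      r4 ≤ s2 ∧ Real.sin (N * v r1) = 1 ∧ Real.sin (N * v r2) = -1 ∧ Real.sin (N * v r3) = 1 ∧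
      Real.sin (N * v r4) = -1 := by
  have hd : 0 < v s2 - v s1 := by linarith
  obtain ⟨N0, hN0⟩ := exists_nat_ge (5 * Real.pi / (v s2 - v s1))
  refine ⟨N0, fun N hN => ?_⟩
  have hpi := Real.pi_pos
  have h1 : 5 * Real.pi ≤ N * (v s2 - v s1) := by
    rw [div_le_iff₀ hd] at hN0
    refine hN0.trans ?_
    have : (N0 : ℝ) ≤ N := by exact_mod_cast hN
    gcongr
  have hw : Continuous fun t => (N : ℝ) * v t := by fun_prop
  obtain ⟨k, hk⟩ : ∃ k : ℤ, k = ⌈(N * v s1 - Real.pi / 2) / (2 * Real.pi)⌉ := ⟨_, rfl⟩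
  have hk1 : (N * v s1 - Real.pi / 2) / (2 * Real.pi) ≤ k := by rw [hk]; exact Int.le_ceil _
  have hk2 : (k : ℝ) < (N * v s1 - Real.pi / 2) / (2 * Real.pi) + 1 := by
    rw [hk]; exact Int.ceil_lt_add_one _
  rw [div_le_iff₀ (by positivity)] at hk1
  have hk3 : (k : ℝ) * (2 * Real.pi) < N * v s1 - Real.pi / 2 + 2 * Real.pi := by
    have := mul_lt_mul_of_pos_right hk2 (show 0 < 2 * Real.pi by positivity)
    rw [add_mul, div_mul_cancel₀ _ (by positivity)] at this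
    linarith
  have step : ∀ (a L : ℝ), s1 ≤ a → a ≤ s2 → N * v a ≤ L → L ≤ N * v s2 →
      ∃ r, a ≤ r ∧ r ≤ s2 ∧ N * v r = L := by
    intro a L _ ha hL1 hL2
    have := intermediate_value_Icc ha hw.continuousOn
    obtain ⟨r, hr, hr2⟩ := this ⟨hL1, hL2⟩
    exact ⟨r, hr.1, hr.2, hr2⟩
  obtain ⟨r1, ha1, hb1, hr1⟩ := step s1 (Real.pi / 2 + k * (2 * Real.pi)) le_rfl hs.le
    (by linarith) (by linarith)
  obtain ⟨r2, ha2, hb2, hr2⟩ := step r1 (Real.pi / 2 + k * (2 * Real.pi) + Real.pi) ha1 hb1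
    (by linarith) (by linarith)
  obtain ⟨r3, ha3, hb3, hr3⟩ := step r2 (Real.pi / 2 + k * (2 * Real.pi) + 2 * Real.pi)
    (by linarith) hb2 (by linarith) (by linarith)
  obtain ⟨r4, ha4, hb4, hr4⟩ := step r3 (Real.pi / 2 + k * (2 * Real.pi) + 3 * Real.pi)
    (by linarith) hb3 (by linarith) (by linarith)
  have hne : ∀ a b : ℝ, a ≤ b → N * v a ≠ N * v b → a < b := fun a b hab hne =>
    lt_of_le_of_ne hab (by rintro rfl; exact hne rfl)
  refine ⟨r1, r2, r3, r4, ha1, hne _ _ ha2 (by rw [hr1, hr2]; intro hh; linarith),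
    hne _ _ ha3 (by rw [hr2, hr3]; intro hh; linarith),
    hne _ _ ha4 (by rw [hr3, hr4]; intro hh; linarith), hb4, ?_, ?_, ?_, ?_⟩
  · rw [hr1, Real.sin_add_int_mul_two_pi, Real.sin_pi_div_two]
  · rw [hr2, Real.sin_add_pi, Real.sin_add_int_mul_two_pi, Real.sin_pi_div_two]
  · rw [hr3, Real.sin_add_two_pi, Real.sin_add_int_mul_two_pi, Real.sin_pi_div_two]
  · rw [hr4]
    have : Real.pi / 2 + k * (2 * Real.pi) + 3 * Real.pi =
        Real.pi / 2 + k * (2 * Real.pi) + 2 * Real.pi + Real.pi := by ring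
    rw [this, Real.sin_add_pi, Real.sin_add_two_pi, Real.sin_add_int_mul_two_pi,
      Real.sin_pi_div_two]

/-- `sin (N v)` takes the values `σ, -σ, σ, -σ` in this order, for large `N`. -/
theorem osc4 {v : ℝ → ℝ} (hv : Continuous v) {s1 s2 : ℝ} (hs : s1 < s2) (h : v s1 ≠ v s2) :
    ∃ N0 : ℕ, ∀ N : ℕ, N0 ≤ N → ∃ r1 r2 r3 r4 : ℝ, s1 ≤ r1 ∧ r1 < r2 ∧ r2 < r3 ∧ r3 < r4 ∧
      r4 ≤ s2 ∧ ((Real.sin (N * v r1) = 1 ∧ Real.sin (N * v r2) = -1 ∧ Real.sin (N * v r3) = 1 ∧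
      Real.sin (N * v r4) = -1) ∨ (Real.sin (N * v r1) = -1 ∧ Real.sin (N * v r2) = 1 ∧
      Real.sin (N * v r3) = -1 ∧ Real.sin (N * v r4) = 1)) := by
  rcases lt_or_gt_of_ne h with h1 | h1
  · obtain ⟨N0, hN0⟩ := osc4_pos hv hs h1
    refine ⟨N0, fun N hN => ?_⟩
    obtain ⟨r1, r2, r3, r4, h1, h2, h3, h4, h5, h6⟩ := hN0 N hN
    exact ⟨r1, r2, r3, r4, h1, h2, h3, h4, h5, Or.inl h6⟩
  · have hv' : Continuous fun t => - v t := hv.neg
    obtain ⟨N0, hN0⟩ := osc4_pos hv' hs (by linarith : - v s1 < - v s2)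
    refine ⟨N0, fun N hN => ?_⟩
    obtain ⟨r1, r2, r3, r4, h1, h2, h3, h4, h5, h6, h7, h8, h9⟩ := hN0 N hN
    simp only [mul_neg, Real.sin_neg] at h6 h7 h8 h9
    exact ⟨r1, r2, r3, r4, h1, h2, h3, h4, h5, Or.inr ⟨by linarith, by linarith, by linarith,
      by linarith⟩⟩

/-- `w` crosses the level `y` in `[a, c]` and in `[c, b]` for some `c ∈ (a, b)`. -/
def DoubleCross (w : ℝ → ℝ) (a b y : ℝ) : Prop :=
  ∃ c ∈ Ioo a b, (∃ t1 ∈ Icc a c, ∃ t2 ∈ Icc a c, w t1 < y ∧ y < w t2) ∧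
    (∃ t3 ∈ Icc c b, ∃ t4 ∈ Icc c b, w t3 < y ∧ y < w t4)

theorem doubleCross_of_point {u v : ℝ → ℝ} (hu : Continuous u) (hv : Continuous v) {a α β y : ℝ}
    (hαβ : α < β)
    (hvne : ∀ s1 s2, α < s1 → s1 < s2 → s2 < β → ∃ r1 r2, s1 ≤ r1 ∧ r1 < r2 ∧ r2 ≤ s2 ∧
      v r1 ≠ v r2)
    {t : ℝ} (ht : t ∈ Icc α β) (h1 : bump (u t) (-a) < y) (h2 : y < bump (u t) a) :
    ∀ᶠ N : ℕ in atTop, DoubleCross (fun s => bump (u s) (a * Real.sin (N * v s))) α β y := by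
  let O : Set ℝ := {s | bump (u s) (-a) < y ∧ y < bump (u s) a}
  have hO : IsOpen O := by
    have c1 : Continuous fun s => bump (u s) (-a) := by unfold bump; fun_prop
    have c2 : Continuous fun s => bump (u s) a := by unfold bump; fun_prop
    exact (isOpen_lt c1 continuous_const).inter (isOpen_lt continuous_const c2)
  have htO : t ∈ O := ⟨h1, h2⟩
  have hcl : t ∈ closure (Ioo α β) := by rw [closure_Ioo hαβ.ne]; exact ht
  obtain ⟨s0, hs0O, hs0⟩ := mem_closure_iff.mp hcl O hO htO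
  have hO2 : IsOpen (O ∩ Ioo α β) := hO.inter isOpen_Ioo
  obtain ⟨ε, hε, hball⟩ := Metric.isOpen_iff.mp hO2 s0 ⟨hs0O, hs0⟩
  have hsub : Icc s0 (s0 + ε / 2) ⊆ O ∩ Ioo α β := by
    intro x hx
    apply hball
    rw [Metric.mem_ball, Real.dist_eq, abs_lt]
    constructor <;> linarith [hx.1, hx.2]
  have e1 : s0 + ε / 2 ∈ Icc s0 (s0 + ε / 2) := ⟨by linarith, le_rfl⟩
  obtain ⟨r1, r2, hr1, hr12, hr2, hne⟩ := hvne s0 (s0 + ε / 2) hs0.1 (by linarith)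
    (hsub e1).2.2
  obtain ⟨N0, hN0⟩ := osc4 hv hr12 hne
  filter_upwards [eventually_ge_atTop N0] with N hN
  obtain ⟨q1, q2, q3, q4, g1, g2, g3, g4, g5, g6⟩ := hN0 N hN
  have hmem : ∀ q, r1 ≤ q → q ≤ r2 → q ∈ O ∩ Ioo α β := fun q hq1 hq2 =>
    hsub ⟨by linarith, by linarith⟩
  have m1 := hmem q1 g1 (by linarith)
  have m2 := hmem q2 (by linarith) (by linarith)
  have m3 := hmem q3 (by linarith) (by linarith)
  have m4 := hmem q4 (by linarith) (by linarith)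
  have up : ∀ q, q ∈ O → Real.sin (N * v q) = 1 → y < bump (u q) (a * Real.sin (N * v q)) :=
    fun q hq hs => by rw [hs, mul_one]; exact hq.2
  have dn : ∀ q, q ∈ O → Real.sin (N * v q) = -1 → bump (u q) (a * Real.sin (N * v q)) < y :=
    fun q hq hs => by rw [hs, mul_neg_one]; exact hq.1
  refine ⟨(q2 + q3) / 2, ⟨by linarith [m2.2.1], by linarith [m3.2.2]⟩, ?_, ?_⟩
  · rcases g6 with ⟨a1, a2, -, -⟩ | ⟨a1, a2, -, -⟩
    · exact ⟨q2, ⟨m2.2.1.le, by linarith⟩, q1, ⟨m1.2.1.le, by linarith⟩, dn q2 m2.1 a2,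
        up q1 m1.1 a1⟩
    · exact ⟨q1, ⟨m1.2.1.le, by linarith⟩, q2, ⟨m2.2.1.le, by linarith⟩, dn q1 m1.1 a1,
        up q2 m2.1 a2⟩
  · rcases g6 with ⟨-, -, a1, a2⟩ | ⟨-, -, a1, a2⟩
    · exact ⟨q4, ⟨by linarith, m4.2.2.le⟩, q3, ⟨by linarith, m3.2.2.le⟩, dn q4 m4.1 a2,
        up q3 m3.1 a1⟩
    · exact ⟨q3, ⟨by linarith, m3.2.2.le⟩, q4, ⟨by linarith, m4.2.2.le⟩, dn q3 m3.1 a1,
        up q4 m4.1 a2⟩

/-- Pointwise: for large `N`, if the level `y` is attained on `[α, β]` it is crossed twice. -/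
theorem doubleCross_eventually {u v : ℝ → ℝ} (hu : Continuous u) (hv : Continuous v)
    {a α β y : ℝ} (ha : 0 < a) (hu01 : ∀ t, u t ∈ Icc (0 : ℝ) 1) (hy : y ∈ Ioo (0 : ℝ) 1)
    (hαβ : α < β)
    (hvne : ∀ s1 s2, α < s1 → s1 < s2 → s2 < β → ∃ r1 r2, s1 ≤ r1 ∧ r1 < r2 ∧ r2 ≤ s2 ∧
      v r1 ≠ v r2)
    (h1 : (∃ t ∈ Icc α β, bump (u t) (-a) ≤ y) → ∃ t ∈ Icc α β, bump (u t) (-a) < y)
    (h2 : (∃ t ∈ Icc α β, y ≤ bump (u t) a) → ∃ t ∈ Icc α β, y < bump (u t) a) :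
    ∀ᶠ N : ℕ in atTop, (∃ t ∈ Icc α β, bump (u t) (a * Real.sin (N * v t)) = y) →
      DoubleCross (fun s => bump (u s) (a * Real.sin (N * v s))) α β y := by
  have hq : ∀ t, 0 ≤ u t * (1 - u t) := fun t => mul_nonneg (hu01 t).1 (by linarith [(hu01 t).2])
  by_cases hc : (∃ t ∈ Icc α β, bump (u t) (-a) ≤ y) ∧ (∃ t ∈ Icc α β, y ≤ bump (u t) a)
  · obtain ⟨t1, ht1, hb1⟩ := h1 hc.1
    obtain ⟨t2, ht2, hb2⟩ := h2 hc.2
    -- find a good point
    have key : ∃ t ∈ Icc α β, bump (u t) (-a) < y ∧ y < bump (u t) a := by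
      by_cases k1 : y < bump (u t1) a
      · exact ⟨t1, ht1, hb1, k1⟩
      by_cases k2 : bump (u t2) (-a) < y
      · exact ⟨t2, ht2, k2, hb2⟩
      push Not at k1 k2
      have e1 : u t1 ≤ y := by
        refine le_trans ?_ k1
        unfold bump
        nlinarith [hq t1]
      have e2 : y ≤ u t2 := by
        refine le_trans k2 ?_
        unfold bump
        nlinarith [hq t2]
      have hsub : uIcc t1 t2 ⊆ Icc α β := uIcc_subset_Icc ht1 ht2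
      have := intermediate_value_uIcc (a := t1) (b := t2) (f := u) hu.continuousOn
      obtain ⟨t, ht, hty⟩ := this (mem_uIcc.mpr (Or.inl ⟨e1, e2⟩))
      have hpos : 0 < u t * (1 - u t) := by
        rw [hty]; exact mul_pos hy.1 (by linarith [hy.2])
      refine ⟨t, hsub ht, ?_, ?_⟩
      · unfold bump; nlinarith
      · unfold bump; nlinarith
    obtain ⟨t, ht, g1, g2⟩ := key
    filter_upwards [doubleCross_of_point hu hv hαβ hvne ht g1 g2] with N hN _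
    exact hN
  · refine Eventually.of_forall fun N hN => ?_
    exfalso
    obtain ⟨t, ht, hty⟩ := hN
    apply hc
    have hs1 := Real.neg_one_le_sin (N * v t)
    have hs2 := Real.sin_le_one (N * v t)
    constructor
    · refine ⟨t, ht, ?_⟩
      rw [← hty]; unfold bump
      have := mul_nonneg (hq t) ha.le
      nlinarith
    · refine ⟨t, ht, ?_⟩
      rw [← hty]; unfold bump
      have := mul_nonneg (hq t) ha.le
      nlinarith

end Pool.Agent.R464.HG
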