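import Mathlib
import Pool.Agent.R464.HG.Shear
import Pool.Agent.R464.HG.Osc
import Pool.Agent.R464.HG.Meas

/-!
# Lines in the cube and the auxiliary function
-/

set_option autoImplicit false

open MeasureTheory Set Filter Topology unitInterval

namespace Pool.Agent.R464.HG

variable {n : ℕ}

/-- The point of the cube with first coordinate `t` and other coordinates those of `p`
(everything clamped to `[0,1]`). -/
noncomputable def pt (p : Fin (n + 2) → ℝ) (t : ℝ) : Fin (n + 2) → I :=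
  fun i => projIcc 0 1 zero_le_one (if i = 0 then t else p i)

theorem continuous_pt : Continuous fun z : (Fin (n + 2) → ℝ) × ℝ => pt z.1 z.2 := by
  refine continuous_pi fun i => ?_
  refine continuous_projIcc.comp ?_
  split_ifs with h
  · exact continuous_snd
  · exact (continuous_apply i).comp continuous_fst

theorem pt_zero (p : Fin (n + 2) → ℝ) {t : ℝ} (ht : t ∈ Icc (0 : ℝ) 1) : (pt p t 0 : ℝ) = t := by
  simp [pt, coe_projIcc, ht.1, ht.2]

theorem pt_succ {p : Fin (n + 2) → ℝ} (hp : p ∈ Icc (0 : Fin (n + 2) → ℝ) 1) (t : ℝ)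
    (i : Fin (n + 1)) : (pt p t i.succ : ℝ) = p i.succ := by
  have h0 := hp.1 i.succ
  have h1 := hp.2 i.succ
  simp only [Pi.zero_apply, Pi.one_apply] at h0 h1
  simp [pt, coe_projIcc, h0, h1]

/-- The observed coordinate along a line. -/
noncomputable def UU (f : (Fin (n + 2) → I) → Fin (n + 2) → I) (p : Fin (n + 2) → ℝ) (t : ℝ) : ℝ :=
  f (pt p t) 0

theorem continuous_coord {f : (Fin (n + 2) → I) → Fin (n + 2) → I} (hf : Continuous f)
    (i : Fin (n + 2)) :
    Continuous fun z : (Fin (n + 2) → ℝ) × ℝ => ((f (pt z.1 z.2) i : I) : ℝ) :=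
  continuous_subtype_val.comp ((continuous_apply i).comp (hf.comp continuous_pt))

theorem continuous_UU {f : (Fin (n + 2) → I) → Fin (n + 2) → I} (hf : Continuous f) :
    Continuous fun z : (Fin (n + 2) → ℝ) × ℝ => UU f z.1 z.2 := continuous_coord hf 0

/-- Points `p` of the cube whose first coordinate is attained on `[a, b]`. -/
def Zs (f : (Fin (n + 2) → I) → Fin (n + 2) → I) (a b : ℝ) : Set (Fin (n + 2) → ℝ) :=
  {p | p ∈ Icc (0 : Fin (n + 2) → ℝ) 1 ∧ ∃ t ∈ Icc a b, UU f p t = p 0}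

/-- Points `p` of the cube whose first coordinate is crossed twice on `[a, b]`. -/
def Ns (f : (Fin (n + 2) → I) → Fin (n + 2) → I) (a b : ℝ) : Set (Fin (n + 2) → ℝ) :=
  {p | p ∈ Icc (0 : Fin (n + 2) → ℝ) 1 ∧ DoubleCross (UU f p) a b (p 0)}

theorem isClosed_Zs {f : (Fin (n + 2) → I) → Fin (n + 2) → I} (hf : Continuous f) (a b : ℝ) :
    IsClosed (Zs f a b) := by
  refine isClosed_Icc.inter ?_
  refine isClosed_exists isCompact_Icc ?_
  exact isClosed_eq (continuous_UU hf) ((continuous_apply 0).comp continuous_fst)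

theorem isOpen_doubleCross {f : (Fin (n + 2) → I) → Fin (n + 2) → I} (hf : Continuous f)
    (a b : ℝ) : IsOpen {p | DoubleCross (UU f p) a b (p 0)} := by
  rw [isOpen_iff_eventually]
  rintro p ⟨c, hc, ⟨t1, h1, t2, h2, h3, h4⟩, ⟨t3, h5, t4, h6, h7, h8⟩⟩
  have hcont : ∀ t : ℝ, Continuous fun q : Fin (n + 2) → ℝ => UU f q t := fun t =>
    (continuous_UU hf).comp (continuous_id.prodMk continuous_const)
  have hlt : ∀ t : ℝ, UU f p t < p 0 → ∀ᶠ q in 𝓝 p, UU f q t < q 0 := fun t ht =>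
    (isOpen_lt (hcont t) (continuous_apply 0)).mem_nhds ht
  have hgt : ∀ t : ℝ, p 0 < UU f p t → ∀ᶠ q in 𝓝 p, q 0 < UU f q t := fun t ht =>
    (isOpen_lt (continuous_apply 0) (hcont t)).mem_nhds ht
  filter_upwards [hlt t1 h3, hgt t2 h4, hlt t3 h7, hgt t4 h8] with q g1 g2 g3 g4
  exact ⟨c, hc, ⟨t1, h1, t2, h2, g1, g2⟩, ⟨t3, h5, t4, h6, g3, g4⟩⟩

theorem measurableSet_Ns {f : (Fin (n + 2) → I) → Fin (n + 2) → I} (hf : Continuous f)
    (a b : ℝ) : MeasurableSet (Ns f a b) :=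
  measurableSet_Icc.inter (isOpen_doubleCross hf a b).measurableSet

theorem measurableSet_Bad {f : (Fin (n + 2) → I) → Fin (n + 2) → I} (hf : Continuous f)
    (a b : ℝ) : MeasurableSet (Zs f a b \ Ns f a b) :=
  (isClosed_Zs hf a b).measurableSet.diff (measurableSet_Ns hf a b)

/-- A uniformly convergent sequence. -/
theorem Ns_eventually {f : (Fin (n + 2) → I) → Fin (n + 2) → I}
    {g : ℕ → (Fin (n + 2) → I) → Fin (n + 2) → I}
    (hg : ∀ x, Tendsto (fun k => g k x) atTop (𝓝 (f x))) {a b : ℝ} {p : Fin (n + 2) → ℝ}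
    (hp : p ∈ Ns f a b) : ∀ᶠ k in atTop, p ∈ Ns (g k) a b := by
  obtain ⟨hp0, c, hc, ⟨t1, h1, t2, h2, h3, h4⟩, ⟨t3, h5, t4, h6, h7, h8⟩⟩ := hp
  have ht : ∀ t, Tendsto (fun k => UU (g k) p t) atTop (𝓝 (UU f p t)) := fun t =>
    (continuous_subtype_val.tendsto _).comp (((continuous_apply 0).tendsto _).comp (hg (pt p t)))
  filter_upwards [(tendsto_order.mp (ht t1)).2 _ h3, (tendsto_order.mp (ht t2)).1 _ h4,
    (tendsto_order.mp (ht t3)).2 _ h7, (tendsto_order.mp (ht t4)).1 _ h8] with k g1 g2 g3 g4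
  exact ⟨hp0, c, hc, ⟨t1, h1, t2, h2, g1, g2⟩, ⟨t3, h5, t4, h6, g3, g4⟩⟩

theorem Zs_of_frequently {f : (Fin (n + 2) → I) → Fin (n + 2) → I} (hf : Continuous f)
    {g : ℕ → (Fin (n + 2) → I) → Fin (n + 2) → I}
    (hg : ∀ ε > 0, ∀ᶠ k in atTop, ∀ x, dist (g k x) (f x) < ε) {a b : ℝ}
    {p : Fin (n + 2) → ℝ} (hp : ∃ᶠ k in atTop, p ∈ Zs (g k) a b) : p ∈ Zs f a b := by
  obtain ⟨k0, hk0⟩ := hp.exists
  refine ⟨hk0.1, ?_⟩
  by_contra hcon
  push Not at hcon
  obtain ⟨t0, ht0, -⟩ := hk0.2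
  have hc : ContinuousOn (fun t => |UU f p t - p 0|) (Icc a b) := by
    have : Continuous fun t => UU f p t := (continuous_UU hf).comp (continuous_const.prodMk continuous_id)
    fun_prop
  obtain ⟨tm, htm, hmin⟩ := isCompact_Icc.exists_isMinOn ⟨t0, ht0⟩ hc
  have hpos : 0 < |UU f p tm - p 0| := abs_pos.mpr (sub_ne_zero.mpr (hcon tm htm))
  obtain ⟨k, hk1, hk2⟩ := (hp.and_eventually (hg _ hpos)).exists
  obtain ⟨t, ht, hteq⟩ := hk1.2
  have h1 : |UU f p tm - p 0| ≤ |UU f p t - p 0| := hmin ht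
  have h2 : |UU f p t - p 0| < |UU f p tm - p 0| := by
    have e : |UU f p t - p 0| = dist (UU (g k) p t) (UU f p t) := by
      rw [hteq, Real.dist_eq, abs_sub_comm]
    rw [e]
    calc dist (UU (g k) p t) (UU f p t) = dist (g k (pt p t) 0) (f (pt p t) 0) := rfl
      _ ≤ dist (g k (pt p t)) (f (pt p t)) := dist_le_pi_dist _ _ 0
      _ < _ := hk2 _
  linarith

/-! ### The auxiliary function -/

/-- The weighted sum of the sheared coordinates. -/
noncomputable def vv (c : ℝ) (y : Fin (n + 2) → I) : ℝ :=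
  ∑ i : Fin (n + 1), bump (y i.succ) (c * y 0) * c ^ (2 * (i : ℕ))

theorem continuous_vv : Continuous fun z : ℝ × (Fin (n + 2) → I) => vv z.1 z.2 := by
  unfold vv bump
  fun_prop

/-- Degenerate lines. -/
def Edge (f : (Fin (n + 2) → I) → Fin (n + 2) → I) (q1 q2 : ℝ) : Set (Fin (n + 2) → ℝ) :=
  {p | p ∈ Icc (0 : Fin (n + 2) → ℝ) 1 ∧ ∀ r ∈ Icc q1 q2, ∀ i : Fin (n + 1),
    f (pt p r) i.succ = f (pt p q1) i.succ ∧
      (f (pt p q1) i.succ = 0 ∨ f (pt p q1) i.succ = 1)}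

theorem finite_c {f : (Fin (n + 2) → I) → Fin (n + 2) → I} (hinj : Function.Injective f)
    {q1 q2 : ℝ} (h0 : 0 ≤ q1) (h12 : q1 < q2) (h1 : q2 ≤ 1) {p : Fin (n + 2) → ℝ}
    (hp : p ∈ Icc (0 : Fin (n + 2) → ℝ) 1) (hpe : p ∉ Edge f q1 q2) :
    {c : ℝ | ∀ r ∈ Icc q1 q2, vv c (f (pt p r)) = vv c (f (pt p q1))}.Finite := by
  have hdiff : ∀ (c r : ℝ), vv c (f (pt p r)) - vv c (f (pt p q1)) =
      ∑ i : Fin (n + 1), ((((f (pt p r) i.succ : ℝ)) - f (pt p q1) i.succ) * c ^ (2 * (i : ℕ)) +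
        ((f (pt p r) i.succ : ℝ) * (1 - f (pt p r) i.succ) * f (pt p r) 0 -
          (f (pt p q1) i.succ : ℝ) * (1 - f (pt p q1) i.succ) * f (pt p q1) 0) *
          c ^ (2 * (i : ℕ) + 1)) := by
    intro c r
    unfold vv
    rw [← Finset.sum_sub_distrib]
    refine Finset.sum_congr rfl fun i _ => ?_
    unfold bump
    ring
  by_cases hcase : ∃ r ∈ Icc q1 q2, ∃ i : Fin (n + 1), f (pt p r) i.succ ≠ f (pt p q1) i.succ
  · obtain ⟨r, hr, i, hi⟩ := hcase
    refine (poly_finite (fun i : Fin (n + 1) => ((f (pt p r) i.succ : ℝ)) - f (pt p q1) i.succ)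
      (fun i => (f (pt p r) i.succ : ℝ) * (1 - f (pt p r) i.succ) * f (pt p r) 0 -
          (f (pt p q1) i.succ : ℝ) * (1 - f (pt p q1) i.succ) * f (pt p q1) 0)
      ⟨i, Or.inl ?_⟩).subset ?_
    · exact sub_ne_zero.mpr (fun hh => hi (Subtype.ext hh))
    · intro c hc
      have := hc r hr
      simp only [Set.mem_ofPred_eq]
      rw [← hdiff c r, this, sub_self]
  · push Not at hcase
    have hex : ∃ i : Fin (n + 1), f (pt p q1) i.succ ≠ 0 ∧ f (pt p q1) i.succ ≠ 1 := by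
      by_contra hcon
      push Not at hcon
      refine hpe ⟨hp, fun r hr i => ⟨hcase r hr i, ?_⟩⟩
      by_cases h : f (pt p q1) i.succ = 0
      · exact Or.inl h
      · exact Or.inr (hcon i h)
    obtain ⟨i, hi0, hi1⟩ := hex
    have hq2 : q2 ∈ Icc q1 q2 := ⟨h12.le, le_rfl⟩
    have hne0 : (f (pt p q2) 0 : ℝ) ≠ f (pt p q1) 0 := by
      intro hh
      have heq : f (pt p q2) = f (pt p q1) := by
        ext j
        refine Fin.cases ?_ (fun j => ?_) j
        · exact hh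
        · rw [hcase q2 hq2 j]
      have h3 := congrFun (hinj heq) 0
      have h4 : (pt p q2 0 : ℝ) = pt p q1 0 := by rw [h3]
      rw [pt_zero p ⟨by linarith, h1⟩, pt_zero p ⟨h0, by linarith⟩] at h4
      linarith
    refine (poly_finite (fun i : Fin (n + 1) => ((f (pt p q2) i.succ : ℝ)) - f (pt p q1) i.succ)
      (fun i => (f (pt p q2) i.succ : ℝ) * (1 - f (pt p q2) i.succ) * f (pt p q2) 0 -
          (f (pt p q1) i.succ : ℝ) * (1 - f (pt p q1) i.succ) * f (pt p q1) 0)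
      ⟨i, Or.inr ?_⟩).subset ?_
    · rw [hcase q2 hq2 i]
      have e0 : (f (pt p q1) i.succ : ℝ) ≠ 0 := fun hh => hi0 (Subtype.ext hh)
      have e1 : (1 - f (pt p q1) i.succ : ℝ) ≠ 0 := fun hh => hi1 (Subtype.ext (by
        simp only [Icc.coe_one]; linarith))
      rw [← mul_sub]
      exact mul_ne_zero (mul_ne_zero e0 e1) (sub_ne_zero.mpr hne0)
    · intro c hc
      have := hc q2 hq2
      simp only [Set.mem_ofPred_eq]
      rw [← hdiff c q2, this, sub_self]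

theorem pt_cons (s s' : ℝ) (x' : Fin (n + 1) → ℝ) (t : ℝ) :
    pt (Fin.cons s x' : Fin (n + 2) → ℝ) t = pt (Fin.cons s' x') t := by
  funext i
  unfold pt
  refine Fin.cases ?_ (fun i => ?_) i
  · simp
  · simp [Fin.succ_ne_zero]

theorem measurableSet_Edge {f : (Fin (n + 2) → I) → Fin (n + 2) → I} (hf : Continuous f)
    (q1 q2 : ℝ) : IsClosed (Edge f q1 q2) := by
  have hE : Edge f q1 q2 = Icc (0 : Fin (n + 2) → ℝ) 1 ∩ ⋂ r ∈ Icc q1 q2, ⋂ i : Fin (n + 1),
      ({p | f (pt p r) i.succ = f (pt p q1) i.succ} ∩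
        ({p | f (pt p q1) i.succ = 0} ∪ {p | f (pt p q1) i.succ = 1})) := by
    ext p
    simp only [Edge, Set.mem_ofPred_eq, mem_inter_iff, mem_iInter, mem_union]
  rw [hE]
  have hcont : ∀ (r : ℝ) (i : Fin (n + 1)), Continuous fun p : Fin (n + 2) → ℝ =>
      f (pt p r) i.succ := fun r i =>
    (continuous_apply _).comp (hf.comp (continuous_pt.comp (continuous_id.prodMk continuous_const)))
  refine isClosed_Icc.inter (isClosed_biInter fun r _ => isClosed_iInter fun i => ?_)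
  exact (isClosed_eq (hcont r i) (hcont q1 i)).inter
    ((isClosed_eq (hcont q1 i) continuous_const).union (isClosed_eq (hcont q1 i) continuous_const))

theorem Edge_null {f : (Fin (n + 2) → I) → Fin (n + 2) → I} (hf : Continuous f)
    (hinj : Function.Injective f) {q1 q2 : ℝ} (h0 : 0 ≤ q1) (h12 : q1 < q2) (h1 : q2 ≤ 1) :
    volume (Edge f q1 q2) = 0 := by
  refine null_of_sections_snd (measurableSet_Edge hf q1 q2).measurableSet fun s => ?_
  -- the section is countable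
  refine Set.Countable.measure_zero ?_ _
  let T : ℚ × (Fin (n + 1) → Bool) → Set (Fin (n + 1) → ℝ) := fun z =>
    {x' | (Fin.cons s x' : Fin (n + 2) → ℝ) ∈ Edge f q1 q2 ∧
      ∃ r ∈ Icc q1 q2, (f (pt (Fin.cons s x') r) 0 : ℝ) = z.1 ∧
        ∀ i : Fin (n + 1), f (pt (Fin.cons s x') r) i.succ = if z.2 i then 1 else 0}
  have hsub : {x' : Fin (n + 1) → ℝ | (Fin.cons s x' : Fin (n + 2) → ℝ) ∈ Edge f q1 q2} ⊆
      ⋃ z, T z := by
    intro x' hx'
    have hx := hx'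
    obtain ⟨hp, he⟩ := hx
    set p : Fin (n + 2) → ℝ := Fin.cons s x' with hpdef
    have hq1 : q1 ∈ Icc q1 q2 := ⟨le_rfl, h12.le⟩
    have hq2 : q2 ∈ Icc q1 q2 := ⟨h12.le, le_rfl⟩
    have hne0 : (f (pt p q1) 0 : ℝ) ≠ f (pt p q2) 0 := by
      intro hh
      have heq : f (pt p q1) = f (pt p q2) := by
        ext j
        refine Fin.cases ?_ (fun j => ?_) j
        · exact hh
        · rw [(he q2 hq2 j).1]
      have h3 := congrFun (hinj heq) 0
      have h4 : (pt p q1 0 : ℝ) = pt p q2 0 := by rw [h3]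
      rw [pt_zero p ⟨by linarith, h1⟩, pt_zero p ⟨h0, by linarith⟩] at h4
      linarith
    have hcont : Continuous fun r : ℝ => (f (pt p r) 0 : ℝ) :=
      (continuous_coord hf 0).comp (continuous_const.prodMk continuous_id)
    -- rational in between
    obtain ⟨κ, hκ⟩ : ∃ κ : ℚ, (κ : ℝ) ∈ uIcc (f (pt p q1) 0 : ℝ) (f (pt p q2) 0) := by
      rcases lt_or_gt_of_ne hne0 with hlt | hlt
      · obtain ⟨κ, hk1, hk2⟩ := exists_rat_btwn hlt
        exact ⟨κ, mem_uIcc.mpr (Or.inl ⟨hk1.le, hk2.le⟩)⟩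
      · obtain ⟨κ, hk1, hk2⟩ := exists_rat_btwn hlt
        exact ⟨κ, mem_uIcc.mpr (Or.inr ⟨hk1.le, hk2.le⟩)⟩
    obtain ⟨r, hr, hrκ⟩ := intermediate_value_uIcc hcont.continuousOn hκ
    rw [uIcc_of_le h12.le] at hr
    classical
    refine mem_iUnion.mpr ⟨(κ, fun i => decide (f (pt p q1) i.succ = 1)), hx', r, hr, hrκ, ?_⟩
    intro i
    rw [← hpdef, (he r hr i).1]
    simp only [decide_eq_true_eq]
    split_ifs with h
    · exact h
    · exact (he r hr i).2.resolve_right h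
  refine Set.Countable.mono hsub (countable_iUnion fun z => Set.Subsingleton.countable ?_)
  rintro x' ⟨⟨hx1, -⟩, r, hr, e1, e2⟩ x'' ⟨⟨hx2, -⟩, r', hr', e3, e4⟩
  have heq : f (pt (Fin.cons s x') r) = f (pt (Fin.cons s x'') r') := by
    ext j
    refine Fin.cases ?_ (fun j => ?_) j
    · rw [e1, e3]
    · rw [e2, e4]
  have h3 := hinj heq
  funext i
  have h4 := congrFun h3 i.succ
  have h5 := pt_succ hx1 r i
  have h6 := pt_succ hx2 r' i
  rw [h4, h6] at h5
  simpa using h5.symm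

end Pool.Agent.R464.HG
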