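import Mathlib

/-!
# Fibres of Lipschitz maps on sets of finite Hausdorff measure
-/

set_option autoImplicit false

open MeasureTheory Filter Topology Set
open scoped ENNReal NNReal

namespace Pool.Agent.R464.HG

/-- If `A` has finite `d`-dimensional Hausdorff measure and `P` is `1`-Lipschitz into `ℝ^d`
then almost every fibre of `P` meets `A` in a finite set. -/
theorem ae_finite_fiber {d : ℕ} {E : Type*} [MetricSpace E] [MeasurableSpace E] [BorelSpace E]
    (A : Set E) (hA : μH[(d : ℝ)] A < ∞) (P : E → (Fin d → ℝ)) (hP : LipschitzWith 1 P) :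
    ∀ᵐ p : Fin d → ℝ, (A ∩ P ⁻¹' {p}).Finite := by
  have hcov : ∀ k : ℕ, ∃ t : ℕ → Set E, A ⊆ ⋃ n, t n ∧
      (∀ n, Metric.ediam (t n) ≤ ((k : ℝ≥0∞) + 1)⁻¹) ∧
      ∑' n, volume (P '' (t n)) ≤ μH[(d : ℝ)] A + 1 := by
    intro k
    have hlt : μH[(d : ℝ)] A < μH[(d : ℝ)] A + 1 :=
      ENNReal.lt_add_right hA.ne one_ne_zero
    have h1 : (⨅ (t : ℕ → Set E) (_ : A ⊆ ⋃ n, t n)
        (_ : ∀ n, Metric.ediam (t n) ≤ ((k : ℝ≥0∞) + 1)⁻¹),
        ∑' n, ⨆ _ : (t n).Nonempty, Metric.ediam (t n) ^ (d : ℝ)) < μH[(d : ℝ)] A + 1 := by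
      refine lt_of_le_of_lt ?_ hlt
      rw [Measure.hausdorffMeasure_apply]
      exact le_iSup₂ (f := fun (r : ℝ≥0∞) (_ : 0 < r) => ⨅ (t : ℕ → Set E) (_ : A ⊆ ⋃ n, t n)
        (_ : ∀ n, Metric.ediam (t n) ≤ r),
        ∑' n, ⨆ _ : (t n).Nonempty, Metric.ediam (t n) ^ (d : ℝ))
        ((k : ℝ≥0∞) + 1)⁻¹ (ENNReal.inv_pos.mpr (by finiteness))
    obtain ⟨t, ht⟩ := iInf_lt_iff.mp h1
    obtain ⟨ht1, ht⟩ := iInf_lt_iff.mp ht
    obtain ⟨ht2, ht⟩ := iInf_lt_iff.mp ht
    refine ⟨t, ht1, ht2, le_trans (ENNReal.tsum_le_tsum fun n => ?_) ht.le⟩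
    rcases (t n).eq_empty_or_nonempty with hn | hn
    · simp [hn]
    · calc volume (P '' (t n)) ≤ Metric.ediam (P '' (t n)) ^ Fintype.card (Fin d) :=
            Real.volume_pi_le_diam_pow _
        _ ≤ Metric.ediam (t n) ^ (d : ℝ) := by
            rw [Fintype.card_fin, ENNReal.rpow_natCast]
            have := hP.ediam_image_le (t n)
            simp only [ENNReal.coe_one, one_mul] at this
            gcongr
        _ ≤ _ := le_iSup (fun _ : (t n).Nonempty => Metric.ediam (t n) ^ (d : ℝ)) hn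
  choose t ht1 ht2 ht3 using hcov
  let M : ℕ → ℕ → Set (Fin d → ℝ) := fun k n => toMeasurable volume (P '' (t k n))
  let N : ℕ → (Fin d → ℝ) → ℝ≥0∞ := fun k p => ∑' n, (M k n).indicator (fun _ => 1) p
  have hNmeas : ∀ k, Measurable (N k) := fun k =>
    Measurable.tsum fun n => measurable_const.indicator (measurableSet_toMeasurable _ _)
  have hNint : ∀ k, ∫⁻ p, N k p ≤ μH[(d : ℝ)] A + 1 := by
    intro k
    rw [lintegral_tsum fun n => (measurable_const.indicator
      (measurableSet_toMeasurable _ _)).aemeasurable]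
    refine le_trans (le_of_eq ?_) (ht3 k)
    congr 1
    ext n
    rw [lintegral_indicator (measurableSet_toMeasurable _ _), lintegral_const, one_mul,
      Measure.restrict_apply_univ, measure_toMeasurable]
  have hliminf : ∫⁻ p, liminf (fun k => N k p) atTop ≤ μH[(d : ℝ)] A + 1 := by
    refine le_trans (lintegral_liminf_le hNmeas) ?_
    refine le_trans (liminf_le_liminf (Eventually.of_forall hNint)) ?_
    simp
  have hae : ∀ᵐ p : Fin d → ℝ, liminf (fun k => N k p) atTop < ∞ := by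
    refine ae_lt_top (Measurable.liminf hNmeas) ?_
    exact ne_top_of_le_ne_top (by finiteness) hliminf
  filter_upwards [hae] with p hp
  by_contra hinf
  have hinf : (A ∩ P ⁻¹' {p}).Infinite := hinf
  apply hp.ne
  refine ENNReal.eq_top_of_forall_nnreal_le fun r => ?_
  obtain ⟨m, hm⟩ := exists_nat_ge (r : ℝ)
  refine le_trans (b := (m : ℝ≥0∞)) (by exact_mod_cast hm) ?_
  obtain ⟨s, hs1, hs2⟩ := hinf.exists_subset_card_eq m
  -- eventually the points of `s` lie in different sets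
  refine le_liminf_of_le (by isBoundedDefault) ?_
  -- separation
  have hsep : ∃ δ > 0, ∀ x ∈ s, ∀ y ∈ s, x ≠ y → δ < edist x y := by
    classical
    rcases ((s ×ˢ s).filter (fun z => z.1 ≠ z.2)).eq_empty_or_nonempty with he | hne
    · refine ⟨1, one_pos, fun x hx y hy hxy => ?_⟩
      have : (x, y) ∈ (s ×ˢ s).filter (fun z => z.1 ≠ z.2) := by simp [hx, hy, hxy]
      rw [he] at this
      simp at this
    · obtain ⟨z, hz, hz2⟩ := Finset.exists_min_image _ (fun z : E × E => edist z.1 z.2) hne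
      have hz3 : z.1 ≠ z.2 := (Finset.mem_filter.mp hz).2
      have h0 : 0 < edist z.1 z.2 := edist_pos.mpr hz3
      obtain ⟨δ, hδ1, hδ2⟩ := exists_between h0
      refine ⟨δ, hδ1, fun x hx y hy hxy => lt_of_lt_of_le hδ2 ?_⟩
      exact hz2 (x, y) (by simp [hx, hy, hxy])
  obtain ⟨δ, hδ, hsep⟩ := hsep
  have hev : ∀ᶠ k : ℕ in atTop, ((k : ℝ≥0∞) + 1)⁻¹ < δ := by
    have h1 : Tendsto (fun k : ℕ => ((k : ℝ≥0∞) + 1)⁻¹) atTop (𝓝 0) := by
      have h2 : Tendsto (fun k : ℕ => ((k : ℝ≥0∞) + 1)) atTop (𝓝 ∞) := by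
        refine tendsto_nhds_top_mono ENNReal.tendsto_nat_nhds_top ?_
        exact Eventually.of_forall fun k => le_self_add
      simpa using ENNReal.tendsto_inv_iff.mpr h2
    exact (tendsto_order.mp h1).2 δ hδ
  filter_upwards [hev] with k hk
  have hsub : ∀ x ∈ s, ∃ n, x ∈ t k n := fun x hx => by
    have : x ∈ ⋃ n, t k n := ht1 k (hs1 hx).1
    simpa using this
  choose! φ hφ using hsub
  have hinj : Set.InjOn φ s := by
    intro x hx y hy hxy
    by_contra hne
    have h1 := hsep x hx y hy hne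
    have h2 : edist x y ≤ Metric.ediam (t k (φ x)) :=
      Metric.edist_le_ediam_of_mem (hφ x hx) (by rw [hxy]; exact hφ y hy)
    have h3 := ht2 k (φ x)
    exact absurd (h1.trans_le (h2.trans h3)) (not_lt.mpr hk.le)
  calc (m : ℝ≥0∞) = ∑ n ∈ s.image φ, (1 : ℝ≥0∞) := by
        rw [Finset.sum_const, Finset.card_image_of_injOn hinj, hs2]; simp
    _ ≤ ∑ n ∈ s.image φ, (M k n).indicator (fun _ => 1) p := by
        refine Finset.sum_le_sum fun n hn => ?_
        obtain ⟨x, hx, rfl⟩ := Finset.mem_image.mp hn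
        have hmem : p ∈ M k (φ x) := by
          apply subset_toMeasurable
          refine ⟨x, hφ x hx, (hs1 hx).2⟩
        rw [Set.indicator_of_mem hmem]
    _ ≤ N k p := ENNReal.sum_le_tsum _

end Pool.Agent.R464.HG
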