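import Mathlib
import Pool.Agent.R464.HG.Core

/-!
# Perturbing a homeomorphism of the cube
-/

set_option autoImplicit false

open MeasureTheory Set Filter Topology unitInterval

namespace Pool.Agent.R464.HG

variable {n : ℕ}

theorem exists_good_c {f : (Fin (n + 2) → I) → Fin (n + 2) → I} (hf : Continuous f)
    (hinj : Function.Injective f) {δ : ℝ} (hδ : 0 < δ) :
    ∃ c : ℝ, 0 < c ∧ c < δ ∧ ∀ᵐ p : Fin (n + 2) → ℝ, p ∈ Icc (0 : Fin (n + 2) → ℝ) 1 →
      ∀ s1 s2 : ℝ, 0 < s1 → s1 < s2 → s2 < 1 → ∃ r1 r2, s1 ≤ r1 ∧ r1 < r2 ∧ r2 ≤ s2 ∧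
        vv c (f (pt p r1)) ≠ vv c (f (pt p r2)) := by
  let B : ℚ × ℚ → Set ((Fin (n + 2) → ℝ) × ℝ) := fun q =>
    {z | (z.1 ∈ Icc (0 : Fin (n + 2) → ℝ) 1 ∧ z.1 ∉ Edge f q.1 q.2) ∧
      ∀ r ∈ Icc (q.1 : ℝ) q.2, vv z.2 (f (pt z.1 r)) = vv z.2 (f (pt z.1 q.1))}
  have hB : ∀ q, MeasurableSet (B q) := by
    intro q
    have h1 : MeasurableSet {z : (Fin (n + 2) → ℝ) × ℝ |
        z.1 ∈ Icc (0 : Fin (n + 2) → ℝ) 1 ∧ z.1 ∉ Edge f q.1 q.2} :=
      (measurable_fst measurableSet_Icc).inter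
        (measurable_fst (measurableSet_Edge hf q.1 q.2).measurableSet.compl)
    have h2 : IsClosed {z : (Fin (n + 2) → ℝ) × ℝ | ∀ r ∈ Icc (q.1 : ℝ) q.2,
        vv z.2 (f (pt z.1 r)) = vv z.2 (f (pt z.1 q.1))} := by
      have : {z : (Fin (n + 2) → ℝ) × ℝ | ∀ r ∈ Icc (q.1 : ℝ) q.2,
          vv z.2 (f (pt z.1 r)) = vv z.2 (f (pt z.1 q.1))} = ⋂ r ∈ Icc (q.1 : ℝ) q.2,
          {z | vv z.2 (f (pt z.1 r)) = vv z.2 (f (pt z.1 q.1))} := by
        ext z; simp
      rw [this]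
      have hc : ∀ r : ℝ, Continuous fun z : (Fin (n + 2) → ℝ) × ℝ => vv z.2 (f (pt z.1 r)) :=
        fun r => continuous_vv.comp (continuous_snd.prodMk
          (hf.comp (continuous_pt.comp (continuous_fst.prodMk continuous_const))))
      exact isClosed_biInter fun r _ => isClosed_eq (hc r) (hc _)
    exact h1.inter h2.measurableSet
  have hsec : ∀ q : ℚ × ℚ, (0 : ℝ) < q.1 → (q.1 : ℝ) < q.2 → (q.2 : ℝ) < 1 →
      ∀ᵐ c : ℝ, volume {p | (p, c) ∈ B q} = 0 := by
    intro q h0 h12 h1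
    refine fubini_swap (hB q) fun p => ?_
    by_cases hp : p ∈ Icc (0 : Fin (n + 2) → ℝ) 1 ∧ p ∉ Edge f q.1 q.2
    · refine Set.Finite.measure_zero ?_ _
      exact (finite_c hinj h0.le h12 h1.le hp.1 hp.2).subset fun c hc => hc.2
    · have : {c : ℝ | (p, c) ∈ B q} = ∅ := by
        ext c
        simp only [Set.mem_ofPred_eq, mem_empty_iff_false, iff_false]
        exact fun hc => hp hc.1
      rw [this, measure_empty]
  have hall : ∀ᵐ c : ℝ, ∀ q : ℚ × ℚ, (0 : ℝ) < q.1 → (q.1 : ℝ) < q.2 → (q.2 : ℝ) < 1 →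
      volume {p | (p, c) ∈ B q} = 0 := by
    rw [ae_all_iff]
    intro q
    by_cases h : (0 : ℝ) < q.1 ∧ (q.1 : ℝ) < q.2 ∧ (q.2 : ℝ) < 1
    · filter_upwards [hsec q h.1 h.2.1 h.2.2] with c hc _ _ _
      exact hc
    · refine Eventually.of_forall fun c h1 h2 h3 => absurd ⟨h1, h2, h3⟩ h
  obtain ⟨c, hcI, hc⟩ : ∃ c ∈ Ioo (0 : ℝ) δ, ∀ q : ℚ × ℚ, (0 : ℝ) < q.1 → (q.1 : ℝ) < q.2 →
      (q.2 : ℝ) < 1 → volume {p | (p, c) ∈ B q} = 0 := by
    by_contra hcon
    push Not at hcon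
    have h1 : volume (Ioo (0 : ℝ) δ) = 0 := by
      refine measure_mono_null ?_ (ae_iff.mp hall)
      intro c hc hcc
      obtain ⟨q, a1, a2, a3, a4⟩ := hcon c hc
      exact a4 (hcc q a1 a2 a3)
    rw [Real.volume_Ioo, ENNReal.ofReal_eq_zero] at h1
    linarith
  refine ⟨c, hcI.1, hcI.2, ?_⟩
  have hae : ∀ᵐ p : Fin (n + 2) → ℝ, ∀ q : ℚ × ℚ, (0 : ℝ) < q.1 → (q.1 : ℝ) < q.2 →
      (q.2 : ℝ) < 1 → p ∉ Edge f q.1 q.2 ∧ (p, c) ∉ B q := by
    rw [ae_all_iff]
    intro q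
    by_cases h : (0 : ℝ) < q.1 ∧ (q.1 : ℝ) < q.2 ∧ (q.2 : ℝ) < 1
    · have h1 : ∀ᵐ p : Fin (n + 2) → ℝ, p ∉ Edge f q.1 q.2 := by
        rw [ae_iff]; simpa using Edge_null hf hinj h.1.le h.2.1 h.2.2.le
      have h2 : ∀ᵐ p : Fin (n + 2) → ℝ, (p, c) ∉ B q := by
        rw [ae_iff]; simpa using hc q h.1 h.2.1 h.2.2
      filter_upwards [h1, h2] with p g1 g2 _ _ _
      exact ⟨g1, g2⟩
    · refine Eventually.of_forall fun p h1 h2 h3 => absurd ⟨h1, h2, h3⟩ h
  filter_upwards [hae] with p hp hpI s1 s2 hs1 hs12 hs2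
  obtain ⟨q1, hq1, hq1'⟩ := exists_rat_btwn hs12
  obtain ⟨q2, hq2, hq2'⟩ := exists_rat_btwn hq1'
  obtain ⟨e1, e2⟩ := hp (q1, q2) (by simp only; linarith) (by simp only; linarith)
    (by simp only; linarith)
  have e3 : ¬ ∀ r ∈ Icc (q1 : ℝ) q2, vv c (f (pt p r)) = vv c (f (pt p q1)) := fun hh =>
    e2 ⟨⟨hpI, e1⟩, hh⟩
  push Not at e3
  obtain ⟨r, hr, hrne⟩ := e3
  have hne : (q1 : ℝ) ≠ r := by
    rintro hh
    rw [← hh] at hrne
    exact hrne rfl
  exact ⟨q1, r, hq1.le, lt_of_le_of_ne hr.1 hne, by linarith [hr.2], hrne.symm⟩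

/-- A point of the open cube at which the first coordinate of `f` lies in `(0, 1)`. -/
theorem exists_interior {f : (Fin (n + 2) → I) → Fin (n + 2) → I} (hf : IsHomeomorph f) :
    ∃ x : Fin (n + 2) → I, (∀ i, (x i : ℝ) ∈ Ioo (0 : ℝ) 1) ∧ (f x 0 : ℝ) ∈ Ioo (0 : ℝ) 1 := by
  obtain ⟨x0, hx0⟩ := hf.surjective (fun _ => ⟨1 / 2, by norm_num, by norm_num⟩)
  let γ : ℝ → Fin (n + 2) → I := fun s i => projIcc 0 1 zero_le_one ((1 - s) * x0 i + s * (1 / 2))
  have hγ : Continuous γ := by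
    refine continuous_pi fun i => continuous_projIcc.comp ?_
    fun_prop
  have hγ0 : γ 0 = x0 := by
    funext i
    simp [γ]
  have hcont : Continuous fun s => (f (γ s) 0 : ℝ) :=
    continuous_subtype_val.comp ((continuous_apply 0).comp (hf.continuous.comp hγ))
  have h0 : (f (γ 0) 0 : ℝ) ∈ Ioo (0 : ℝ) 1 := by
    rw [hγ0, hx0]
    constructor <;> norm_num
  have hev : ∀ᶠ s in 𝓝 (0 : ℝ), (f (γ s) 0 : ℝ) ∈ Ioo (0 : ℝ) 1 :=
    (isOpen_Ioo.preimage hcont).mem_nhds h0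
  obtain ⟨ε, hε, hball⟩ := Metric.eventually_nhds_iff.mp hev
  let s := min (ε / 2) (1 / 2)
  have hs0 : 0 < s := by positivity
  have hs1 : s ≤ 1 / 2 := min_le_right _ _
  have hs2 : s ≤ ε / 2 := min_le_left _ _
  refine ⟨γ s, fun i => ?_, hball (by rw [Real.dist_eq, sub_zero, abs_of_pos hs0]; linarith)⟩
  obtain ⟨a0, a1⟩ := (x0 i).2
  have e1 : 0 < (1 - s) * (x0 i : ℝ) + s * (1 / 2) := by nlinarith
  have e2 : (1 - s) * (x0 i : ℝ) + s * (1 / 2) < 1 := by nlinarith
  simp only [γ, coe_projIcc]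
  constructor
  · exact lt_max_of_lt_right (lt_min zero_lt_one e1)
  · rw [min_eq_right e2.le, max_eq_right e1.le]; exact e2

theorem null_first_coord (s : ℝ) : ∀ᵐ p : Fin (n + 2) → ℝ, p 0 ≠ s := by
  rw [ae_iff]
  have hB : MeasurableSet {p : Fin (n + 2) → ℝ | ¬ p 0 ≠ s} := by
    have : {p : Fin (n + 2) → ℝ | ¬ p 0 ≠ s} = {p | p 0 = s} := by ext p; simp
    rw [this]
    exact (isClosed_eq (continuous_apply 0) continuous_const).measurableSet
  refine null_of_sections_fst hB fun x' => ?_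
  have : {s' : ℝ | (Fin.cons s' x' : Fin (n + 2) → ℝ) ∈ {p : Fin (n + 2) → ℝ | ¬ p 0 ≠ s}} = {s} := by
    ext s'; simp
  rw [this]; simp

/-- Almost no point is an extreme value. -/
theorem null_extreme {w : (Fin (n + 2) → ℝ) → ℝ → ℝ} (hw : Continuous fun z :
    (Fin (n + 2) → ℝ) × ℝ => w z.1 z.2)
    (hw0 : ∀ s s' x' t, w (Fin.cons s x') t = w (Fin.cons s' x') t) (a b : ℝ) :
    (∀ᵐ p : Fin (n + 2) → ℝ, (∃ t ∈ Icc a b, w p t ≤ p 0) → ∃ t ∈ Icc a b, w p t < p 0) ∧
    (∀ᵐ p : Fin (n + 2) → ℝ, (∃ t ∈ Icc a b, p 0 ≤ w p t) → ∃ t ∈ Icc a b, p 0 < w p t) := by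
  have hc : ∀ t : ℝ, Continuous fun p : Fin (n + 2) → ℝ => w p t := fun t =>
    hw.comp (continuous_id.prodMk continuous_const)
  constructor
  · rw [ae_iff]
    have hB : MeasurableSet {p : Fin (n + 2) → ℝ |
        (∃ t ∈ Icc a b, w p t ≤ p 0) ∧ ∀ t ∈ Icc a b, p 0 ≤ w p t} := by
      refine (isClosed_exists (C := fun p t => w p t ≤ p 0) isCompact_Icc ?_).measurableSet.inter ?_
      · exact isClosed_le hw ((continuous_apply 0).comp continuous_fst)
      · have : {p : Fin (n + 2) → ℝ | ∀ t ∈ Icc a b, p 0 ≤ w p t} =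
            ⋂ t ∈ Icc a b, {p | p 0 ≤ w p t} := by ext p; simp
        change MeasurableSet {p : Fin (n + 2) → ℝ | ∀ t ∈ Icc a b, p 0 ≤ w p t}
        rw [this]
        exact (isClosed_biInter fun t _ => isClosed_le (continuous_apply 0) (hc t)).measurableSet
    refine measure_mono_null ?_ (null_of_sections_fst hB fun x' => ?_)
    · intro p hp
      simp only [Set.mem_ofPred_eq, Classical.not_imp, not_exists, not_and, not_lt] at hp
      exact hp
    · refine Set.Subsingleton.measure_zero ?_ _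
      rintro s ⟨⟨t, ht, h1⟩, h2⟩ s' ⟨⟨t', ht', h1'⟩, h2'⟩
      simp only [Fin.cons_zero] at h1 h2 h1' h2'
      have e1 := h2 t' ht'
      have e2 := h2' t ht
      rw [hw0 s s' x' t'] at e1
      rw [hw0 s' s x' t] at e2
      linarith
  · rw [ae_iff]
    have hB : MeasurableSet {p : Fin (n + 2) → ℝ |
        (∃ t ∈ Icc a b, p 0 ≤ w p t) ∧ ∀ t ∈ Icc a b, w p t ≤ p 0} := by
      refine (isClosed_exists (C := fun p t => p 0 ≤ w p t) isCompact_Icc ?_).measurableSet.inter ?_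
      · exact isClosed_le ((continuous_apply 0).comp continuous_fst) hw
      · have : {p : Fin (n + 2) → ℝ | ∀ t ∈ Icc a b, w p t ≤ p 0} =
            ⋂ t ∈ Icc a b, {p | w p t ≤ p 0} := by ext p; simp
        change MeasurableSet {p : Fin (n + 2) → ℝ | ∀ t ∈ Icc a b, w p t ≤ p 0}
        rw [this]
        exact (isClosed_biInter fun t _ => isClosed_le (hc t) (continuous_apply 0)).measurableSet
    refine measure_mono_null ?_ (null_of_sections_fst hB fun x' => ?_)
    · intro p hp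
      simp only [Set.mem_ofPred_eq, Classical.not_imp, not_exists, not_and, not_lt] at hp
      exact hp
    · refine Set.Subsingleton.measure_zero ?_ _
      rintro s ⟨⟨t, ht, h1⟩, h2⟩ s' ⟨⟨t', ht', h1'⟩, h2'⟩
      simp only [Fin.cons_zero] at h1 h2 h1' h2'
      have e1 := h2 t' ht'
      have e2 := h2' t ht
      rw [hw0 s s' x' t'] at e1
      rw [hw0 s' s x' t] at e2
      linarith

theorem perturb {f : (Fin (n + 2) → I) → Fin (n + 2) → I} (hf : IsHomeomorph f) {η : ℝ}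
    (hη : 0 < η) : ∃ g : ℕ → (Fin (n + 2) → I) → Fin (n + 2) → I,
      (∀ k, IsHomeomorph (g k)) ∧ (∀ k x, dist (g k x) (f x) ≤ η) ∧
      (∀ a b : ℝ, 0 ≤ a → a < b → b ≤ 1 →
        ∀ᵐ p, ∀ᶠ k in atTop, p ∉ Zs (g k) a b \ Ns (g k) a b) ∧
      (∃ W : Set (Fin (n + 2) → ℝ), IsOpen W ∧ W.Nonempty ∧
        ∀ᵐ p, p ∈ W → ∀ᶠ k in atTop, p ∈ Ns (g k) 0 1) := by
  let a0 : ℝ := min (η / 2) (1 / 2)
  have ha0 : 0 < a0 := by positivity
  have ha1 : a0 ≤ 1 / 2 := min_le_right _ _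
  have ha2 : a0 ≤ η / 2 := min_le_left _ _
  obtain ⟨c, hc0, hc1, hcae⟩ := exists_good_c hf.continuous hf.injective ha0
  -- the first shear
  let hρ : (Fin (n + 2) → I) → Fin (n + 2) → ℝ := fun y i => if i = 0 then 0 else c * y 0
  have hρb : ∀ y i, |hρ y i| ≤ a0 := by
    intro y i
    simp only [hρ]
    split_ifs
    · simpa using ha0.le
    · rw [abs_mul, abs_of_pos hc0]
      obtain ⟨b0, b1⟩ := (y 0).2
      rw [abs_of_nonneg b0]
      nlinarith
  have hρb' : ∀ y i, |hρ y i| ≤ 1 / 2 := fun y i => (hρb y i).trans ha1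
  have hρc : Continuous hρ := by
    refine continuous_pi fun i => ?_
    by_cases hi : i = 0
    · simp only [hρ, hi, if_true]; exact continuous_const
    · simp only [hρ, hi, if_false]; fun_prop
  have hρH : IsHomeomorph (Phi hρ hρb') := by
    refine Phi_isHomeomorph hρb' hρc {i | i ≠ 0} ?_ ?_
    · intro y i hi
      have : i = 0 := by simpa using hi
      simp [hρ, this]
    · intro y z hyz
      have := hyz 0 (by simp)
      funext i
      simp [hρ, this]
  let w : (Fin (n + 2) → I) → ℝ := fun y => ∑ i : Fin (n + 1), (y i.succ : ℝ) * c ^ (2 * (i : ℕ))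
  have hwc : Continuous w := by fun_prop
  have hwvv : ∀ y, w (Phi hρ hρb' y) = vv c y := by
    intro y
    simp only [w, vv, Phi, hρ, Fin.succ_ne_zero, if_false]
  let hτ : ℕ → (Fin (n + 2) → I) → Fin (n + 2) → ℝ := fun k y i =>
    if i = 0 then a0 * Real.sin (k * w y) else 0
  have hτb : ∀ k y i, |hτ k y i| ≤ a0 := by
    intro k y i
    simp only [hτ]
    split_ifs
    · rw [abs_mul, abs_of_pos ha0]
      have := Real.abs_sin_le_one (k * w y)
      nlinarith
    · simpa using ha0.le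
  have hτb' : ∀ k y i, |hτ k y i| ≤ 1 / 2 := fun k y i => (hτb k y i).trans ha1
  have hτc : ∀ k, Continuous (hτ k) := by
    intro k
    refine continuous_pi fun i => ?_
    by_cases hi : i = 0
    · simp only [hτ, hi, if_true]; fun_prop
    · simp only [hτ, hi, if_false]; exact continuous_const
  have hτH : ∀ k, IsHomeomorph (Phi (hτ k) (hτb' k)) := by
    intro k
    refine Phi_isHomeomorph (hτb' k) (hτc k) {0} ?_ ?_
    · intro y i hi
      have : i ≠ 0 := by simpa using hi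
      simp [hτ, this]
    · intro y z hyz
      have hw : w y = w z := by
        simp only [w]
        refine Finset.sum_congr rfl fun i _ => ?_
        rw [hyz i.succ (by simp [Fin.succ_ne_zero])]
      funext i
      simp [hτ, hw]
  let g : ℕ → (Fin (n + 2) → I) → Fin (n + 2) → I := fun k x =>
    Phi (hτ k) (hτb' k) (Phi hρ hρb' (f x))
  have hgU : ∀ k p t, UU (g k) p t =
      bump (UU f p t) (a0 * Real.sin (k * vv c (f (pt p t)))) := by
    intro k p t
    have e1 : (Phi hρ hρb' (f (pt p t)) 0 : ℝ) = f (pt p t) 0 := by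
      simp [Phi, hρ, bump_zero]
    simp only [UU, g]
    rw [← hwvv]
    change bump (Phi hρ hρb' (f (pt p t)) 0 : ℝ) (hτ k (Phi hρ hρb' (f (pt p t))) 0) = _
    rw [e1]
    simp [hτ]
  have hu : ∀ p, Continuous fun t => UU f p t := fun p =>
    (continuous_UU hf.continuous).comp (continuous_const.prodMk continuous_id)
  have hv : ∀ p, Continuous fun t => vv c (f (pt p t)) := fun p =>
    continuous_vv.comp (continuous_const.prodMk
      (hf.continuous.comp (continuous_pt.comp (continuous_const.prodMk continuous_id))))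
  have hbumpc : ∀ k : ℝ, Continuous fun z : (Fin (n + 2) → ℝ) × ℝ => bump (UU f z.1 z.2) k := by
    intro k
    have := continuous_UU hf.continuous (n := n)
    unfold bump
    fun_prop
  have hbump0 : ∀ k s s' x' t, bump (UU f (Fin.cons s x') t) k =
      bump (UU f (Fin.cons s' x') t) k := by
    intro k s s' x' t
    rw [UU, UU, pt_cons s s']
  refine ⟨g, fun k => (hτH k).comp (hρH.comp hf), ?_, ?_, ?_⟩
  · intro k x
    calc dist (g k x) (f x) ≤ dist (g k x) (Phi hρ hρb' (f x)) + dist (Phi hρ hρb' (f x)) (f x) :=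
          dist_triangle _ _ _
      _ ≤ a0 + a0 := by
          gcongr
          · exact Phi_dist (hτb' k) ha0.le (hτb k) _
          · exact Phi_dist hρb' ha0.le hρb _
      _ ≤ η := by linarith
  · intro a b ha hab hb
    filter_upwards [hcae, null_first_coord 0, null_first_coord 1,
      (null_extreme (w := fun p t => bump (UU f p t) (-a0)) (hbumpc (-a0)) (hbump0 (-a0)) a b).1,
      (null_extreme (w := fun p t => bump (UU f p t) a0) (hbumpc a0) (hbump0 a0) a b).2] with p hp1 hp2 hp3 hp4 hp5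
    by_cases hpI : p ∈ Icc (0 : Fin (n + 2) → ℝ) 1
    · have hy : p 0 ∈ Ioo (0 : ℝ) 1 := by
        have h0 := hpI.1 0
        have h1 := hpI.2 0
        simp only [Pi.zero_apply, Pi.one_apply] at h0 h1
        exact ⟨lt_of_le_of_ne h0 hp2.symm, lt_of_le_of_ne h1 hp3⟩
      have := doubleCross_eventually (hu p) (hv p) ha0 (fun t => (f (pt p t) 0).2) hy hab
        (fun s1 s2 h1 h2 h3 => hp1 hpI s1 s2 (by linarith) h2 (by linarith)) hp4 hp5
      filter_upwards [this] with k hk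
      rintro ⟨⟨-, t, ht, hteq⟩, hN⟩
      apply hN
      refine ⟨hpI, ?_⟩
      have h6 := hk ⟨t, ht, by rw [← hgU]; exact hteq⟩
      have h7 : UU (g k) p = fun s => bump (UU f p s) (a0 * Real.sin (k * vv c (f (pt p s)))) := by
        funext s; exact hgU k p s
      rw [h7]
      exact h6
    · exact Eventually.of_forall fun k hk => hpI hk.1.1
  · obtain ⟨x, hx1, hx2⟩ := exists_interior hf
    refine ⟨{p | (∀ i, p i ∈ Ioo (0 : ℝ) 1) ∧ ∃ t ∈ Ioo (0 : ℝ) 1,
      bump (UU f p t) (-a0) < p 0 ∧ p 0 < bump (UU f p t) a0}, ?_, ?_, ?_⟩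
    · have e1 : IsOpen {p : Fin (n + 2) → ℝ | ∀ i, p i ∈ Ioo (0 : ℝ) 1} := by
        have : {p : Fin (n + 2) → ℝ | ∀ i, p i ∈ Ioo (0 : ℝ) 1} =
            ⋂ i, {p | p i ∈ Ioo (0 : ℝ) 1} := by ext p; simp
        rw [this]
        exact isOpen_iInter_of_finite fun i => isOpen_Ioo.preimage (continuous_apply i)
      have e2 : IsOpen {p : Fin (n + 2) → ℝ | ∃ t ∈ Ioo (0 : ℝ) 1,
          bump (UU f p t) (-a0) < p 0 ∧ p 0 < bump (UU f p t) a0} := by
        have : {p : Fin (n + 2) → ℝ | ∃ t ∈ Ioo (0 : ℝ) 1,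
          bump (UU f p t) (-a0) < p 0 ∧ p 0 < bump (UU f p t) a0} =
          ⋃ t ∈ Ioo (0 : ℝ) 1, {p | bump (UU f p t) (-a0) < p 0 ∧ p 0 < bump (UU f p t) a0} := by
          ext p; simp only [Set.mem_ofPred_eq, mem_iUnion, exists_prop]
        rw [this]
        refine isOpen_biUnion fun t _ => ?_
        have c1 : ∀ k : ℝ, Continuous fun p : Fin (n + 2) → ℝ => bump (UU f p t) k := fun k =>
          (hbumpc k).comp (continuous_id.prodMk continuous_const)
        exact (isOpen_lt (c1 _) (continuous_apply 0)).inter (isOpen_lt (continuous_apply 0) (c1 _))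
      exact e1.inter e2
    · refine ⟨Fin.cons (f x 0 : ℝ) (fun i => (x i.succ : ℝ)), ?_, x 0, hx1 0, ?_⟩
      · intro i
        refine Fin.cases ?_ (fun i => ?_) i
        · simpa using hx2
        · simpa using hx1 i.succ
      · have hpt : pt (Fin.cons (f x 0 : ℝ) (fun i => (x i.succ : ℝ))) (x 0 : ℝ) = x := by
          funext i
          refine Fin.cases ?_ (fun i => ?_) i
          · simp [pt]
          · simp [pt, Fin.succ_ne_zero]
        simp only [UU, hpt, Fin.cons_zero]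
        have hpos : 0 < (f x 0 : ℝ) * (1 - f x 0) * a0 :=
          mul_pos (mul_pos hx2.1 (by linarith [hx2.2])) ha0
        unfold bump
        constructor <;> linarith
    · filter_upwards [hcae] with p hp1 hpW
      obtain ⟨hpI, t, ht, h1, h2⟩ := hpW
      have hpI' : p ∈ Icc (0 : Fin (n + 2) → ℝ) 1 :=
        ⟨fun i => (hpI i).1.le, fun i => (hpI i).2.le⟩
      have := doubleCross_of_point (hu p) (hv p) zero_lt_one
        (fun s1 s2 h1 h2 h3 => hp1 hpI' s1 s2 (by linarith) h2 (by linarith))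
        (Ioo_subset_Icc_self ht) h1 h2
      filter_upwards [this] with k hk
      refine ⟨hpI', ?_⟩
      have h7 : UU (g k) p = fun s => bump (UU f p s) (a0 * Real.sin (k * vv c (f (pt p s)))) := by
        funext s; exact hgU k p s
      rw [h7]
      exact hk

end Pool.Agent.R464.HG
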